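import Pool.Agent.Helper89.NQ.Rec
import Pool.Agent.Helper66.NQ.Orb

/-!
# NK, part A: runs of bounded length, the recursion
-/

set_option autoImplicit false

namespace Pool.Agent.Helper78.NK

open Finset Pool.Agent.Helper19.NF Pool.Agent.Helper74.NW Pool.Agent.Helper99.NQ
open Pool.Agent.Helper74.NE (fine fine_apply)
open Pool.Agent.Helper89.NQ (card_le_gap)

section defs

variable {n D m S : ℕ} {F B Z : Type} [Field F] [AddCommGroup B] [Module F B] [Fintype B] [NeZero m]

/-- EVERY computation from `s` to `t` with at most `ℓ` queries makes all nodes of row `i` full, with at most `a`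
exceptions. -/
def Force (P : NProg (B × Word D m B) F Z S) (g : Fin D → Equiv.Perm (Fin n)) (x0 : Fin n × Fin m → B) (h a i ℓ : ℕ)
    (s t : Fin S) (I : B × Word D m B → F) : Prop :=
  ∀ c, P.Run I s c t → c.length ≤ ℓ → n ≤ (full g x0 h i I (free c)).card + a

/-- The bad inputs of the type `(i, s, p, t, J, h1, h2)`. -/
structure InE (P : NProg (B × Word D m B) F Z S) (g : Fin D → Equiv.Perm (Fin n)) (x0 : Fin n × Fin m → B)
    (h a i ℓ : ℕ) (s p t : Fin S) (J : Finset (Fin n)) (h1 h2 : Fin n → Fin D × Fin m)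
    (I : B × Word D m B → F) : Prop where
  cf : CF (fine g) x0 i (tab I)
  force : Force P g x0 h a (i + 1) (2 * ℓ) s t I
  win1 : ∃ c, P.Run I s c p ∧ c.length ≤ ℓ ∧
    ∀ u ∈ J, h ≤ gap (free c) (val (fine g) x0 (tab I) i (pos g h1 u))
  win2 : ∃ c, P.Run I p c t ∧ c.length ≤ ℓ ∧
    ∀ u ∈ J, h ≤ gap (free c) (val (fine g) x0 (tab I) i (pos g h2 u))

end defs

section holes

variable {n D m S : ℕ} [NeZero m] {F B Z : Type} [Field F] [AddCommGroup B] [Module F B] [Fintype B]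

/-- The holes of the nodes which are not complete. -/
theorem exists_holes (g : Fin D → Equiv.Perm (Fin n)) (x0 : Fin n × Fin m → B) (h i : ℕ)
    (I : B × Word D m B → F) (V : Finset (B × Word D m B)) (r0 : Fin D × Fin m) :
    ∃ f : Fin n → Fin D × Fin m, ∀ u, u ∉ comp g x0 h i I V →
      h ≤ gap V (val (fine g) x0 (tab I) i (pos g f u)) := by
  classical
  have h2 : ∀ u, ∃ r : Fin D × Fin m, u ∉ comp g x0 h i I V →
      h ≤ gap V (val (fine g) x0 (tab I) i (g r.1 u, r.2)) := by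
    intro u
    by_cases hu : u ∈ comp g x0 h i I V
    · exact ⟨r0, fun h3 => absurd hu h3⟩
    · have : ∃ r : Fin D × Fin m, h ≤ gap V (val (fine g) x0 (tab I) i (g r.1 u, r.2)) := by
        by_contra h2
        push Not at h2
        exact hu (mem_filter.2 ⟨mem_univ _, fun s t => h2 (s, t)⟩)
      obtain ⟨r, hr⟩ := this
      exact ⟨r, fun _ => hr⟩
  choose f hf using h2
  exact ⟨f, fun u hu => hf u hu⟩

/-- If every short run is complete at the part `1 / κ` of all nodes, then every short run is full at all but `a`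
nodes. Otherwise there is a short run with few complete nodes. -/
theorem force_or (P : NProg (B × Word D m B) F Z S) (g : Fin D → Equiv.Perm (Fin n)) (x0 : Fin n × Fin m → B)
    (h a i ℓ κ : ℕ)
    (hX : ∀ X : Finset (Fin n), n ≤ κ * X.card → n ≤ (X.biUnion (fun u => univ.image (fun s => g s u))).card + a)
    (I : B × Word D m B → F) (s t : Fin S) :
    Force P g x0 h a i ℓ s t I ∨
      ∃ c, P.Run I s c t ∧ c.length ≤ ℓ ∧ κ * (comp g x0 h i I (free c)).card < n := by
  classical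
  by_cases hA : ∃ c, P.Run I s c t ∧ c.length ≤ ℓ ∧ κ * (comp g x0 h i I (free c)).card < n
  · exact Or.inr hA
  · left
    push Not at hA
    intro c hc hl
    have h4 := hA c hc hl
    have h1 := hX _ h4
    have h2 : ((comp g x0 h i I (free c)).biUnion (fun u => univ.image (fun s => g s u))) ⊆
        full g x0 h i I (free c) := by
      intro v hv
      obtain ⟨u, hu, hv⟩ := mem_biUnion.1 hv
      obtain ⟨s, -, rfl⟩ := mem_image.1 hv
      have h3 := (mem_filter.1 hu).2
      exact mem_filter.2 ⟨mem_univ _, fun t => h3 s t⟩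
    have h3 := card_le_card h2
    omega

/-- NK, A1: the recursion. -/
theorem exists_inE (P : NProg (B × Word D m B) F Z S) (g : Fin D → Equiv.Perm (Fin n)) (x0 : Fin n × Fin m → B)
    (h a R ℓ : ℕ)
    (hX : ∀ X : Finset (Fin n), n ≤ 4 * X.card → n ≤ (X.biUnion (fun u => univ.image (fun s => g s u))).card + a)
    (ha : a < n) (hL : h + ℓ ≤ Fintype.card (Word D m B)) (r0 : Fin D × Fin m) {I : B × Word D m B → F}
    (hcf : CF (fine g) x0 R (tab I)) {s t : Fin S} (hF : Force P g x0 h a R (2 ^ R * ℓ) s t I)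
    {c : List (B × Word D m B)} (hc : P.Run I s c t) (hlen : c.length ≤ 2 ^ R * ℓ) :
    ∃ i < R, ∃ s' p t' J h1 h2, n ≤ 2 * J.card ∧ InE P g x0 h a i (2 ^ i * ℓ) s' p t' J h1 h2 I := by
  classical
  induction R generalizing s t c with
  | zero =>
    exfalso
    have h1 := hF c hc hlen
    have h2 : 0 < (full g x0 h 0 I (free c)).card := by omega
    obtain ⟨u, hu⟩ := card_pos.1 h2
    have h3 := (mem_filter.1 hu).2 0
    have h4 := card_le_gap c (val (fine g) x0 (tab I) 0 (u, 0))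
    rw [pow_zero, one_mul] at hlen
    omega
  | succ R ih =>
    have h2ℓ : 2 ^ (R + 1) * ℓ = 2 * (2 ^ R * ℓ) := by
      rw [pow_succ]
      ring
    rw [h2ℓ] at hlen hF
    have h1 : P.Run I s (c.take (2 ^ R * ℓ) ++ c.drop (2 ^ R * ℓ)) t := by
      rw [List.take_append_drop]
      exact hc
    obtain ⟨p, hp1, hp2⟩ := run_split _ h1
    have hl1 : (c.take (2 ^ R * ℓ)).length ≤ 2 ^ R * ℓ := by
      rw [List.length_take]
      exact min_le_left _ _
    have hl2 : (c.drop (2 ^ R * ℓ)).length ≤ 2 ^ R * ℓ := by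
      rw [List.length_drop]
      omega
    rcases force_or P g x0 h a R (2 ^ R * ℓ) 4 hX I s p with hF1 | ⟨c1, hc1, hlc1, h41⟩
    · obtain ⟨i, hi, h2⟩ := ih (hcf.mono (Nat.le_succ R)) hF1 hp1 hl1
      exact ⟨i, by omega, h2⟩
    rcases force_or P g x0 h a R (2 ^ R * ℓ) 4 hX I p t with hF2 | ⟨c2, hc2, hlc2, h42⟩
    · obtain ⟨i, hi, h2⟩ := ih (hcf.mono (Nat.le_succ R)) hF2 hp2 hl2
      exact ⟨i, by omega, h2⟩
    set J : Finset (Fin n) := (comp g x0 h R I (free c1) ∪ comp g x0 h R I (free c2))ᶜ with hJ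
    have hJc : n ≤ 2 * J.card := by
      have h2 := card_union_le (comp g x0 h R I (free c1)) (comp g x0 h R I (free c2))
      have h3 := card_compl_add_card (comp g x0 h R I (free c1) ∪ comp g x0 h R I (free c2))
      rw [← hJ, Fintype.card_fin] at h3
      omega
    have hn1 : ∀ u ∈ J, u ∉ comp g x0 h R I (free c1) := fun u hu h2 =>
      (mem_compl.1 hu) (mem_union_left _ h2)
    have hn2 : ∀ u ∈ J, u ∉ comp g x0 h R I (free c2) := fun u hu h2 =>
      (mem_compl.1 hu) (mem_union_right _ h2)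
    obtain ⟨f1, hf1⟩ := exists_holes g x0 h R I (free c1) r0
    obtain ⟨f2, hf2⟩ := exists_holes g x0 h R I (free c2) r0
    exact ⟨R, Nat.lt_succ_self R, s, p, t, J, f1, f2, hJc,
      { cf := hcf.mono (Nat.le_succ R)
        force := hF
        win1 := ⟨c1, hc1, hlc1, fun u hu => hf1 u (hn1 u hu)⟩
        win2 := ⟨c2, hc2, hlc2, fun u hu => hf2 u (hn2 u hu)⟩ }⟩

end holes

section card

variable {n D m d S : ℕ} [NeZero m] {F B Z : Type} [Field F] [Fintype F] [AddCommGroup B] [Module F B] [Fintype B]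

theorem card_le_free (c : List (B × Word D m B)) :
    Fintype.card (B × Word D m B) ≤ (free c).card + c.length := by
  classical
  have h1 : ((univ : Finset (B × Word D m B)).filter (fun z => ¬ z ∉ c)).card ≤ c.length := by
    refine (card_le_card ?_).trans (List.toFinset_card_le c)
    intro z hz
    have h2 := (mem_filter.1 hz).2
    rw [not_not] at h2
    exact List.mem_toFinset.2 h2
  have h3 := card_filter_add_card_filter_not (s := (univ : Finset (B × Word D m B))) (fun z => z ∉ c)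
  rw [card_univ] at h3
  have h4 : (free c).card = ((univ : Finset (B × Word D m B)).filter (fun z => z ∉ c)).card := by
    unfold free
    congr
  omega

/-- NK, A2: the bound for one orbit. -/
theorem orbit (P : NProg (B × Word D m B) F Z S) (g : Fin D → Equiv.Perm (Fin n))
    (x0 : Fin n × Fin m → B)
    (h T a i ℓ κ j : ℕ) (hℓ : 2 * ℓ ≤ T) (s p t : Fin S) (J : Finset (Fin n)) (h1 h2 : Fin n → Fin D × Fin m)
    (hj : j ≤ J.card)
    (hh : h ≤ Fintype.card (Word D m B)) (hq : Fintype.card (Word D m B) ≤ h * Fintype.card F)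
    (hT : T ≤ Fintype.card (B × Word D m B)) (η : ℝ)
    (hη : η = 1 + (1 - (T : ℝ) / Fintype.card (B × Word D m B) -
      (h : ℝ) / Fintype.card (Word D m B)) / 2)
    (hη1 : 1 ≤ η) (hκ : 2 * a ≤ κ) (I : B × Word D m B → F) (hI : CF (fine g) x0 i (tab I)) :
    (Nat.card {x : Ch n D m F B //
      InE P g x0 h a i ℓ s p t J h1 h2 (Pool.Agent.Helper66.NQ.act g x0 i I x)} : ℝ) ≤
      err n m d a κ j (Fintype.card F) ((h : ℝ) / Fintype.card (Word D m B)) η *
        Nat.card (Ch n D m F B) := by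
  classical
  set E : Finset (Ch n D m F B) :=
    univ.filter fun x => InE P g x0 h a i ℓ s p t J h1 h2 (Pool.Agent.Helper66.NQ.act g x0 i I x) with hE
  have hmem : ∀ x, x ∈ E ↔ InE P g x0 h a i ℓ s p t J h1 h2 (Pool.Agent.Helper66.NQ.act g x0 i I x) := by
    intro x
    rw [hE]
    simp only [mem_filter, mem_univ, true_and]
  have hc : Nat.card {x : Ch n D m F B //
      InE P g x0 h a i ℓ s p t J h1 h2 (Pool.Agent.Helper66.NQ.act g x0 i I x)} = E.card := by
    rw [Nat.card_eq_fintype_card, Fintype.card_subtype]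
  rw [hc]
  -- runs
  have hw1 : ∀ x, ∃ c : List (B × Word D m B), x ∈ E →
      P.Run (Pool.Agent.Helper66.NQ.act g x0 i I x) s c p ∧ c.length ≤ ℓ ∧
      ∀ u ∈ J, h ≤ gap (free c) (val (fine g) x0 (tab (Pool.Agent.Helper66.NQ.act g x0 i I x)) i (pos g h1 u)) := by
    intro x
    by_cases hx : x ∈ E
    · obtain ⟨c, hc⟩ := ((hmem x).1 hx).win1
      exact ⟨c, fun _ => hc⟩
    · exact ⟨[], fun h => absurd h hx⟩
  have hw2 : ∀ x, ∃ c : List (B × Word D m B), x ∈ E →
      P.Run (Pool.Agent.Helper66.NQ.act g x0 i I x) p c t ∧ c.length ≤ ℓ ∧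
      ∀ u ∈ J, h ≤ gap (free c) (val (fine g) x0 (tab (Pool.Agent.Helper66.NQ.act g x0 i I x)) i (pos g h2 u)) := by
    intro x
    by_cases hx : x ∈ E
    · obtain ⟨c, hc⟩ := ((hmem x).1 hx).win2
      exact ⟨c, fun _ => hc⟩
    · exact ⟨[], fun h => absurd h hx⟩
  choose c1 hc1 using hw1
  choose c2 hc2 using hw2
  set cell : Fin n × Fin m → B := val (fine g) x0 (tab I) i with hcell
  set t0 : Fin n × Fin m → B := val (fine g) x0 (tab I) (i + 1) with ht0
  refine Pool.Agent.Helper18.NQ.orbit_bound (d := d) g h1 h2 cell t0 h T a E (fun x => free (c1 x))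
    (fun x => free (c2 x)) ?_ J κ j hj ?_ ?_ hh hq hT η hη hη1 hκ
  · intro x hx x1 hx1 x2 hx2 ha1 ha2
    have hcong : ∀ (y : Ch n D m F B) (c : List (B × Word D m B)),
        (∀ p l, y p l ≠ x p l → l ∈ left cell (free c) p) →
        ∀ z ∈ c, Pool.Agent.Helper66.NQ.act g x0 i I y z = Pool.Agent.Helper66.NQ.act g x0 i I x z := by
      intro y c hy z hz
      refine Pool.Agent.Helper66.NQ.act_congr hI y x z fun q hq => ?_
      by_contra hne
      have h3 := hy q z.2 hne
      unfold left at h3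
      rw [mem_filter] at h3
      have h4 := h3.2
      rw [hcell, hq, Pool.Agent.Helper66.NQ.mem_free] at h4
      exact h4 hz
    have r1 : P.Run (Pool.Agent.Helper66.NQ.act g x0 i I x) s (c1 x1) p :=
      run_congr (hc1 x1 hx1).1 (hcong x1 (c1 x1) ha1)
    have r2 : P.Run (Pool.Agent.Helper66.NQ.act g x0 i I x) p (c2 x2) t :=
      run_congr (hc2 x2 hx2).1 (hcong x2 (c2 x2) ha2)
    have hlen : (c1 x1 ++ c2 x2).length ≤ 2 * ℓ := by
      rw [List.length_append]
      have e1 := (hc1 x1 hx1).2.1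
      have e2 := (hc2 x2 hx2).2.1
      omega
    have f1 := ((hmem x).1 hx).force _ (run_append r1 r2) hlen
    have f2 := card_le_free (c1 x1 ++ c2 x2)
    rw [Pool.Agent.Helper66.NQ.free_append] at f1 f2
    refine ⟨f2.trans (Nat.add_le_add_left (hlen.trans hℓ) _),
      f1.trans (Nat.add_le_add_right (card_le_card ?_) a)⟩
    intro u hu
    unfold full at hu
    rw [mem_filter] at hu ⊢
    refine ⟨mem_univ _, fun t' => ?_⟩
    have h5 := hu.2 t'
    rw [Pool.Agent.Helper66.NQ.val_act_succ hI] at h5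
    exact h5
  · intro x hx u hu
    have h3 := (hc1 x hx).2.2 u hu
    rw [Pool.Agent.Helper66.NQ.val_act hI x le_rfl] at h3
    exact h3
  · intro x hx u hu
    have h3 := (hc2 x hx).2.2 u hu
    rw [Pool.Agent.Helper66.NQ.val_act hI x le_rfl] at h3
    exact h3

end card

section average

variable {n D m : ℕ} [NeZero m] {F B : Type} [Field F] [Fintype F] [AddCommGroup B] [Module F B] [Fintype B]

/-- From orbits to inputs, for any property `Q` of inputs which contains the absence of collisions. -/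
theorem average (g : Fin D → Equiv.Perm (Fin n)) (x0 : Fin n × Fin m → B) (i : ℕ)
    (Q : (B × Word D m B → F) → Prop) (hQ : ∀ I, Q I → CF (fine g) x0 i (tab I)) (δ : ℝ) (hδ : 0 ≤ δ)
    (h5 : ∀ I : B × Word D m B → F, CF (fine g) x0 i (tab I) →
      (Nat.card {x : Ch n D m F B // Q (Pool.Agent.Helper66.NQ.act g x0 i I x)} : ℝ) ≤
        δ * Nat.card (Ch n D m F B)) :
    (Nat.card {I // Q I} : ℝ) ≤ δ * Nat.card (B × Word D m B → F) := by
  classical
  let V : Type := B × Word D m B → F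
  let Y : Type := Ch n D m F B
  have hFinV : Fintype V := Fintype.ofFinite V
  have hFinY : Fintype Y := Fintype.ofFinite Y
  let PP : Type := {p' : V × Y // CF (fine g) x0 i (tab p'.1) ∧
    Q (Pool.Agent.Helper66.NQ.act g x0 i p'.1 p'.2)}
  have e1 : {I : V // Q I} × Y ≃ PP :=
    { toFun := fun q => ⟨(Pool.Agent.Helper66.NQ.act g x0 i q.1.1 (-q.2), q.2),
          Pool.Agent.Helper66.NQ.cf_act (hQ _ q.1.2) _, by
        have h := Pool.Agent.Helper66.NQ.act_neg (hQ _ q.1.2) (-q.2)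
        rw [neg_neg] at h
        show Q (Pool.Agent.Helper66.NQ.act g x0 i (Pool.Agent.Helper66.NQ.act g x0 i q.1.1 (-q.2)) q.2)
        rw [h]
        exact q.1.2⟩
      invFun := fun q => (⟨Pool.Agent.Helper66.NQ.act g x0 i q.1.1 q.1.2, q.2.2⟩, q.1.2)
      left_inv := by
        rintro ⟨⟨I, hI⟩, y⟩
        have h := Pool.Agent.Helper66.NQ.act_neg (hQ _ hI) (-y)
        rw [neg_neg] at h
        exact Prod.ext (Subtype.ext h) rfl
      right_inv := by
        rintro ⟨⟨I, y⟩, h1, h2⟩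
        exact Subtype.ext (Prod.ext (Pool.Agent.Helper66.NQ.act_neg h1 y) rfl) }
  have e2 : PP ≃ Σ I : {I : V // CF (fine g) x0 i (tab I)},
      {y : Y // Q (Pool.Agent.Helper66.NQ.act g x0 i I.1 y)} :=
    { toFun := fun q => ⟨⟨q.1.1, q.2.1⟩, ⟨q.1.2, q.2.2⟩⟩
      invFun := fun q => ⟨(q.1.1, q.2.1), q.1.2, q.2.2⟩
      left_inv := fun q => rfl
      right_inv := fun q => rfl }
  have h1' : Nat.card {I : V // Q I} * Nat.card Y = Nat.card PP := by
    rw [← Nat.card_congr e1]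
    exact (Nat.card_prod _ _).symm
  have h2' : (Nat.card PP : ℝ) ≤ δ * Nat.card Y * Nat.card V := by
    rw [Nat.card_congr e2, Nat.card_eq_fintype_card, Fintype.card_sigma]
    push_cast
    calc ∑ I : {I : V // CF (fine g) x0 i (tab I)},
          (Fintype.card {y : Y // Q (Pool.Agent.Helper66.NQ.act g x0 i I.1 y)} : ℝ)
        ≤ ∑ _I : {I : V // CF (fine g) x0 i (tab I)}, δ * Nat.card Y := by
          refine Finset.sum_le_sum fun I _ => ?_
          rw [← Nat.card_eq_fintype_card]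
          exact h5 I.1 I.2
      _ = δ * Nat.card Y * Fintype.card {I : V // CF (fine g) x0 i (tab I)} := by
          rw [Finset.sum_const, Finset.card_univ, nsmul_eq_mul, mul_comm]
      _ ≤ δ * Nat.card Y * Nat.card V := by
          rw [Nat.card_eq_fintype_card (α := V)]
          refine mul_le_mul_of_nonneg_left ?_ (by positivity)
          exact_mod_cast Fintype.card_subtype_le _
  have h3 : (0 : ℝ) < Nat.card Y := by
    have : Nonempty Y := ⟨0⟩
    exact_mod_cast Nat.card_pos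
  have h4 : (Nat.card {I : V // Q I} : ℝ) * Nat.card Y ≤ δ * Nat.card V * Nat.card Y := by
    rw [show δ * (Nat.card V : ℝ) * Nat.card Y = δ * Nat.card Y * Nat.card V by ring]
    refine le_trans (le_of_eq ?_) h2'
    exact_mod_cast h1'
  exact le_of_mul_le_mul_right h4 h3

end average

section main

variable {n D m d S : ℕ} [NeZero m] {F B Z : Type} [Field F] [Fintype F] [AddCommGroup B] [Module F B] [Fintype B]

theorem card_inE (P : NProg (B × Word D m B) F Z S) (g : Fin D → Equiv.Perm (Fin n)) (x0 : Fin n × Fin m → B)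
    (h T a i ℓ κ j : ℕ) (hℓ : 2 * ℓ ≤ T) (s p t : Fin S) (J : Finset (Fin n)) (h1 h2 : Fin n → Fin D × Fin m)
    (hj : j ≤ J.card)
    (hh : h ≤ Fintype.card (Word D m B)) (hq : Fintype.card (Word D m B) ≤ h * Fintype.card F)
    (hT : T ≤ Fintype.card (B × Word D m B)) (η : ℝ)
    (hη : η = 1 + (1 - (T : ℝ) / Fintype.card (B × Word D m B) - (h : ℝ) / Fintype.card (Word D m B)) / 2)
    (hη1 : 1 ≤ η) (hκ : 2 * a ≤ κ) :
    (Nat.card {I // InE P g x0 h a i ℓ s p t J h1 h2 I} : ℝ) ≤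
      err n m d a κ j (Fintype.card F) ((h : ℝ) / Fintype.card (Word D m B)) η *
        Nat.card (B × Word D m B → F) := by
  refine average g x0 i _ (fun I hI => hI.cf) _ ?_
    (fun I hI => orbit (d := d) P g x0 h T a i ℓ κ j hℓ s p t J h1 h2 hj hh hq hT η hη hη1 hκ I hI)
  unfold err
  have : 0 ≤ η := le_trans zero_le_one hη1
  positivity

/-- NK, part A: few inputs have two states `s`, `t` such that there is a run from `s` to `t` with at most `2 ^ R * ℓ`
queries and all these runs make all nodes of row `R` full, with at most `a` exceptions. -/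
theorem forced_bound (P : NProg (B × Word D m B) F Z S) (g : Fin D → Equiv.Perm (Fin n)) (x0 : Fin n × Fin m → B)
    (h T a R ℓ κ j : ℕ) (r0 : Fin D × Fin m)
    (hX : ∀ X : Finset (Fin n), n ≤ 4 * X.card → n ≤ (X.biUnion (fun u => univ.image (fun s => g s u))).card + a)
    (ha : a < n) (hℓ : 2 ^ R * ℓ ≤ T)
    (hL : h + ℓ ≤ Fintype.card (Word D m B)) (hq : Fintype.card (Word D m B) ≤ h * Fintype.card F)
    (hT : T ≤ Fintype.card (B × Word D m B)) (η : ℝ)
    (hη : η = 1 + (1 - (T : ℝ) / Fintype.card (B × Word D m B) - (h : ℝ) / Fintype.card (Word D m B)) / 2)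
    (hη1 : 1 ≤ η) (hκ : 2 * a ≤ κ) (hj : 2 * j ≤ n) :
    (Nat.card {I : B × Word D m B → F // CF (fine g) x0 R (tab I) ∧ ∃ s t,
      (∃ c, P.Run I s c t ∧ c.length ≤ 2 ^ R * ℓ) ∧ Force P g x0 h a R (2 ^ R * ℓ) s t I} : ℝ) ≤
      R * S ^ 3 * 2 ^ n * (D * m) ^ (2 * n) *
          err n m d a κ j (Fintype.card F) ((h : ℝ) / Fintype.card (Word D m B)) η *
        Nat.card (B × Word D m B → F) := by
  classical
  let τ : Type := Fin R × (Fin S × Fin S × Fin S) × {J : Finset (Fin n) // n ≤ 2 * J.card} ×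
    ((Fin n → Fin D × Fin m) × (Fin n → Fin D × Fin m))
  have hcov : ∀ I : B × Word D m B → F, (CF (fine g) x0 R (tab I) ∧ ∃ s t,
      (∃ c, P.Run I s c t ∧ c.length ≤ 2 ^ R * ℓ) ∧ Force P g x0 h a R (2 ^ R * ℓ) s t I) → False ∨
      ∃ θ : τ, InE P g x0 h a θ.1 (2 ^ (θ.1 : ℕ) * ℓ) θ.2.1.1 θ.2.1.2.1 θ.2.1.2.2 θ.2.2.1.1 θ.2.2.2.1 θ.2.2.2.2 I := by
    rintro I ⟨hcf, s, t, ⟨c, hc, hlc⟩, hF⟩
    right
    obtain ⟨i, hi, s', p, t', J, h1, h2, hJ, hE⟩ := exists_inE P g x0 h a R ℓ hX ha hL r0 hcf hF hc hlc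
    exact ⟨(⟨i, hi⟩, (s', p, t'), ⟨J, hJ⟩, h1, h2), hE⟩
  have h1 : Nat.card {I : B × Word D m B → F // CF (fine g) x0 R (tab I) ∧ ∃ s t,
      (∃ c, P.Run I s c t ∧ c.length ≤ 2 ^ R * ℓ) ∧ Force P g x0 h a R (2 ^ R * ℓ) s t I} ≤
      ∑ θ : τ, Nat.card {I : B × Word D m B → F //
        InE P g x0 h a θ.1 (2 ^ (θ.1 : ℕ) * ℓ) θ.2.1.1 θ.2.1.2.1 θ.2.1.2.2 θ.2.2.1.1 θ.2.2.2.1 θ.2.2.2.2 I} := by
    have := Fintype.ofFinite (B × Word D m B → F)
    simp only [Nat.card_eq_fintype_card, Fintype.card_subtype]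
    refine le_trans (card_le_card (t := univ.biUnion (fun θ : τ => univ.filter (fun I =>
      InE P g x0 h a θ.1 (2 ^ (θ.1 : ℕ) * ℓ) θ.2.1.1 θ.2.1.2.1 θ.2.1.2.2 θ.2.2.1.1 θ.2.2.2.1 θ.2.2.2.2 I))) ?_)
      card_biUnion_le
    intro I hI
    rw [mem_filter] at hI
    rcases hcov I hI.2 with h2 | ⟨θ, h2⟩
    · exact absurd h2 not_false
    · exact mem_biUnion.mpr ⟨θ, mem_univ _, mem_filter.mpr ⟨mem_univ _, h2⟩⟩
  have h2 : (Nat.card {I : B × Word D m B → F // CF (fine g) x0 R (tab I) ∧ ∃ s t,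
      (∃ c, P.Run I s c t ∧ c.length ≤ 2 ^ R * ℓ) ∧ Force P g x0 h a R (2 ^ R * ℓ) s t I} : ℝ) ≤
        ∑ θ : τ, (Nat.card {I : B × Word D m B → F //
          InE P g x0 h a θ.1 (2 ^ (θ.1 : ℕ) * ℓ) θ.2.1.1 θ.2.1.2.1 θ.2.1.2.2 θ.2.2.1.1 θ.2.2.2.1 θ.2.2.2.2 I} : ℝ) := by
    exact_mod_cast h1
  set er : ℝ := err n m d a κ j (Fintype.card F) ((h : ℝ) / Fintype.card (Word D m B)) η with her
  have her0 : 0 ≤ er := by
    rw [her]
    unfold err
    have : 0 ≤ η := le_trans zero_le_one hη1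
    positivity
  have hone : ∀ θ : τ, (Nat.card {I : B × Word D m B → F //
      InE P g x0 h a θ.1 (2 ^ (θ.1 : ℕ) * ℓ) θ.2.1.1 θ.2.1.2.1 θ.2.1.2.2 θ.2.2.1.1 θ.2.2.2.1 θ.2.2.2.2 I} : ℝ) ≤
      er * Nat.card (B × Word D m B → F) := by
    intro θ
    have hjJ : j ≤ θ.2.2.1.1.card := by
      have := θ.2.2.1.2
      omega
    have hi := θ.1.2
    have hℓ' : 2 * (2 ^ (θ.1 : ℕ) * ℓ) ≤ T := by
      refine le_trans ?_ hℓ
      rw [← mul_assoc, ← pow_succ']
      exact Nat.mul_le_mul_right _ (Nat.pow_le_pow_right (by norm_num) hi)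
    exact card_inE P g x0 h T a θ.1 _ κ j hℓ' _ _ _ _ _ _ hjJ (by omega) hq hT η hη hη1 hκ
  have hτ : (Fintype.card τ : ℝ) ≤ R * S ^ 3 * 2 ^ n * (D * m) ^ (2 * n) := by
    have h3 : Fintype.card τ = R * ((S * (S * S)) * (Fintype.card {J : Finset (Fin n) // n ≤ 2 * J.card} *
        ((D * m) ^ n * (D * m) ^ n))) := by
      show Fintype.card (Fin R × (Fin S × Fin S × Fin S) × {J : Finset (Fin n) // n ≤ 2 * J.card} ×
        ((Fin n → Fin D × Fin m) × (Fin n → Fin D × Fin m))) = _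
      simp only [Fintype.card_prod, Fintype.card_fin, Fintype.card_fun]
    have h4 : Fintype.card {J : Finset (Fin n) // n ≤ 2 * J.card} ≤ 2 ^ n := by
      refine (Fintype.card_subtype_le _).trans ?_
      rw [Fintype.card_finset, Fintype.card_fin]
    have h5 : Fintype.card τ ≤ R * ((S * (S * S)) * (2 ^ n * ((D * m) ^ n * (D * m) ^ n))) := by
      rw [h3]
      exact Nat.mul_le_mul_left _ (Nat.mul_le_mul_left _ (Nat.mul_le_mul_right _ h4))
    have h6 : R * ((S * (S * S)) * (2 ^ n * ((D * m) ^ n * (D * m) ^ n))) =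
        R * S ^ 3 * 2 ^ n * (D * m) ^ (2 * n) := by
      rw [two_mul n, pow_add]
      ring
    rw [h6] at h5
    exact_mod_cast h5
  refine h2.trans ?_
  calc ∑ θ : τ, (Nat.card {I : B × Word D m B → F //
          InE P g x0 h a θ.1 (2 ^ (θ.1 : ℕ) * ℓ) θ.2.1.1 θ.2.1.2.1 θ.2.1.2.2 θ.2.2.1.1 θ.2.2.2.1 θ.2.2.2.2 I} : ℝ)
      ≤ ∑ _θ : τ, er * Nat.card (B × Word D m B → F) := sum_le_sum fun θ _ => hone θ
    _ = Fintype.card τ * (er * Nat.card (B × Word D m B → F)) := by
        rw [sum_const, card_univ, nsmul_eq_mul]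
    _ ≤ (R * S ^ 3 * 2 ^ n * (D * m) ^ (2 * n)) * (er * Nat.card (B × Word D m B → F)) :=
        mul_le_mul_of_nonneg_right hτ (mul_nonneg her0 (Nat.cast_nonneg _))
    _ = _ := by ring

end main

end Pool.Agent.Helper78.NK
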