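import Pool.Agent.Helper43.NK.Defs
import Pool.Agent.Helper78.NQ.Main
import Pool.Agent.Helper18.PH.P1
import Pool.Agent.Helper4.PH.Fix

/-!
# NK, C2b: all types together, average over the symbols at the place `0`
-/

set_option autoImplicit false

namespace Pool.Agent.Helper78.NK

open Finset Pool.Agent.Helper19.NF Pool.Agent.Helper74.NW Pool.Agent.Helper99.NQ Pool.Agent.Helper43.NK
open Pool.Agent.Helper74.NE (fine fine_apply)
open Pool.Agent.Helper96.PH (CB)
open Pool.Agent.Helper78.NQ (card_le_add_sum card_cf)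

section surj

variable {X Y : Type} [AddCommGroup X] [AddCommGroup Y]

theorem card_surj (f : X →+ Y) (hf : Function.Surjective f) (p : Y → Prop) :
    Nat.card {x // p (f x)} * Nat.card Y = Nat.card {y // p y} * Nat.card X := by
  classical
  choose sec hsec using hf
  have key : ∀ p : Y → Prop, Nat.card {x // p (f x)} = Nat.card {y // p y} * Nat.card f.ker := by
    intro p
    rw [← Nat.card_prod]
    refine Nat.card_congr
      { toFun := fun x => (⟨f x.1, x.2⟩, ⟨x.1 - sec (f x.1), ?_⟩)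
        invFun := fun x => ⟨x.2.1 + sec x.1.1, ?_⟩
        left_inv := ?_
        right_inv := ?_ }
    · rw [AddMonoidHom.mem_ker, map_sub, hsec, sub_self]
    · have h1 : f (x.2.1 + sec x.1.1) = x.1.1 := by
        rw [map_add, hsec, AddMonoidHom.mem_ker.1 x.2.2, zero_add]
      rw [h1]
      exact x.1.2
    · intro x
      apply Subtype.ext
      exact sub_add_cancel _ _
    · rintro ⟨⟨y, hy⟩, ⟨k, hk⟩⟩
      have h1 : f (k + sec y) = y := by
        rw [map_add, hsec, AddMonoidHom.mem_ker.1 hk, zero_add]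
      apply Prod.ext
      · exact Subtype.ext h1
      · apply Subtype.ext
        show k + sec y - sec (f (k + sec y)) = k
        rw [h1, add_sub_cancel_right]
  have h1 := key (fun _ => True)
  have h2 : Nat.card {x : X // True} = Nat.card X := Nat.card_congr (Equiv.subtypeUnivEquiv fun _ => trivial)
  have h3 : Nat.card {y : Y // True} = Nat.card Y := Nat.card_congr (Equiv.subtypeUnivEquiv fun _ => trivial)
  rw [h2, h3] at h1
  rw [key p, h1]
  ring

theorem card_fiber {X Γ : Type} [Finite X] [Fintype Γ] (ρ : X → Γ) (p : X → Prop) :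
    Nat.card {x // p x} = ∑ γ, Nat.card {x // ρ x = γ ∧ p x} := by
  classical
  have := Fintype.ofFinite X
  simp only [Nat.card_eq_fintype_card, Fintype.card_subtype]
  rw [card_eq_sum_card_fiberwise (f := ρ) (t := univ) (fun x _ => mem_univ _)]
  refine sum_congr rfl fun γ _ => ?_
  congr 1
  ext x
  simp only [mem_filter, mem_univ, true_and]
  exact and_comm

end surj

section zero

variable {D m : ℕ} {F B : Type} [Field F] [AddCommGroup B]

/-- The symbols at the place `0`. -/
def zr : (B × Word D m B → F) →+ (B → F) where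
  toFun I := fun b => I (b, 0)
  map_zero' := rfl
  map_add' _ _ := rfl

theorem zr_surj : Function.Surjective (zr : (B × Word D m B → F) →+ (B → F)) := fun γ => ⟨fun x => γ x.1, rfl⟩

theorem zr_eq {I : B × Word D m B → F} {γ : B → F} : zr I = γ ↔ ∀ b, I (b, 0) = γ b :=
  ⟨fun h b => congrFun h b, fun h => funext h⟩

variable [Fintype F] [Fintype B]

/-- The inputs with bad symbols at the place `0`. -/
theorem card_bad (p : (B → F) → Prop) {δ : ℝ}
    (h : (Nat.card {γ : B → F // p γ} : ℝ) ≤ δ * Nat.card (B → F)) :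
    (Nat.card {I : B × Word D m B → F // p (zr I)} : ℝ) ≤ δ * Nat.card (B × Word D m B → F) := by
  have h1 := card_surj (zr : (B × Word D m B → F) →+ (B → F)) zr_surj p
  have h2 : (Nat.card {I : B × Word D m B → F // p (zr I)} : ℝ) * Nat.card (B → F) =
      Nat.card {γ : B → F // p γ} * Nat.card (B × Word D m B → F) := by exact_mod_cast h1
  have h3 : (0 : ℝ) < Nat.card (B → F) := by exact_mod_cast Nat.card_pos
  refine le_of_mul_le_mul_right ?_ h3
  rw [h2]
  calc (Nat.card {γ : B → F // p γ} : ℝ) * Nat.card (B × Word D m B → F)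
      ≤ (δ * Nat.card (B → F)) * Nat.card (B × Word D m B → F) :=
        mul_le_mul_of_nonneg_right h (Nat.cast_nonneg _)
    _ = _ := by ring

end zero

section main

variable {n D m d S : ℕ} [NeZero m] {F B Z : Type} [Field F] [Fintype F] [AddCommGroup B] [Module F B] [Fintype B]

theorem run_chain (P : NProg (B × Word D m B) F Z S) {I : B × Word D m B → F} {w : ℕ} (σ : Fin (w + 1) → Fin S)
    (h : ∀ l : Fin w, ∃ c, P.Run I (σ l.castSucc) c (σ l.succ)) : ∃ c, P.Run I (σ 0) c (σ (Fin.last w)) := by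
  have key : ∀ k : Fin (w + 1), ∃ c, P.Run I (σ 0) c (σ k) := by
    intro k
    induction k using Fin.induction with
    | zero => exact ⟨[], NProg.Run.nil _⟩
    | succ i ih =>
      obtain ⟨c, hc⟩ := ih
      obtain ⟨c', hc'⟩ := h i
      exact ⟨c ++ c', run_append hc hc'⟩
  exact key (Fin.last w)

open Classical in
/-- The inputs with the property `Q`, each of which is of the form `Fc` or of some type, for sound programs. -/
theorem assemble (P : NProg (B × Word D m B) F F S) (g : Fin D → Equiv.Perm (Fin n)) (x0 : Fin n × Fin m → B)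
    (hx0 : Function.Injective x0) (c0 : Fin D × Fin m) (h R : ℕ) {w : ℕ} (Q Fc : (B × Word D m B → F) → Prop)
    (fb : ℝ)
    (hcov : ∀ I, CF (fine g) x0 R (tab I) → Q I → Fc I ∨ ∃ (σ : Fin (w + 2) → Fin S) (V : Finset (Fin n))
      (τ : Fin (w + 1) → Fin n → Fin D × Fin m) (z : F), σ 0 = P.start ∧ P.act (σ (Fin.last _)) = Sum.inr z ∧
        3 * n ≤ 4 * V.card ∧ InT P g x0 h R σ V τ I)
    (hF : (Nat.card {I // CF (fine g) x0 R (tab I) ∧ Fc I} : ℝ) ≤ fb * Nat.card (B × Word D m B → F))
    (hP : ∀ I l z, P.Ends I l z → z = out g x0 (R + 1) I) (k1 : ℕ) {E : ℝ} (hE0 : 0 ≤ E)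
    (hTB : ∀ (σ : Fin (w + 2) → Fin S) (V : Finset (Fin n)) (τ : Fin (w + 1) → Fin n → Fin D × Fin m) (a : F)
      (γ : B → F), 3 * n ≤ 4 * V.card →
      (∀ I, (∀ b, I (b, 0) = γ b) → (∀ l : Fin (w + 1), ∃ c, P.Run I (σ l.castSucc) c (σ l.succ)) →
        out g x0 (R + 1) I = a) →
      (∀ K : Finset (Fin n), k1 ≤ K.card → CB γ (K × Fin m) (2 * w + 1)
        ((Fintype.card B : ℝ) ^ (-((k1 * m : ℕ) : ℝ) / 2 ^ (2 * w + 3)))) →
      (Nat.card {I : B × Word D m B → F // (∀ b, I (b, 0) = γ b) ∧ CF (fine g) x0 R (tab I) ∧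
        InT P g x0 h R σ V τ I} : ℝ) ≤ E * Nat.card {I : B × Word D m B → F // ∀ b, I (b, 0) = γ b}) :
    (Nat.card {I // Q I} : ℝ) ≤
      (((R + 1) * (n * m)) ^ 2 / Fintype.card B + fb +
        Fintype.card F * 2 ^ (2 * w + 2) / Real.sqrt (Fintype.card B) +
        S ^ (w + 2) * 2 ^ n * (D * m) ^ (n * (w + 1)) * E) * Nat.card (B × Word D m B → F) := by
  -- good functions of the symbols at the place `0`
  let Gd : (B → F) → Prop := fun γ => ∀ (ι : Type) [Fintype ι],
    CB γ ι (2 * w + 1) ((Fintype.card B : ℝ) ^ (-(Fintype.card ι : ℝ) / 2 ^ (2 * w + 1 + 2)))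
  have hbns := Pool.Agent.Helper18.PH.bns2 B F (2 * w + 1)
  have hbad : (Nat.card {I : B × Word D m B → F // ¬ Gd (zr I)} : ℝ) ≤
      (Fintype.card F * 2 ^ (2 * w + 2) / Real.sqrt (Fintype.card B)) * Nat.card (B × Word D m B → F) :=
    card_bad (fun γ => ¬ Gd γ) hbns
  have hB1 : (1 : ℝ) ≤ Fintype.card B := by
    exact_mod_cast (Fintype.card_pos_iff.mpr ⟨(0 : B)⟩ : 0 < Fintype.card B)
  have hgood : ∀ γ, Gd γ → ∀ K : Finset (Fin n), k1 ≤ K.card → CB γ (K × Fin m) (2 * w + 1)
      ((Fintype.card B : ℝ) ^ (-((k1 * m : ℕ) : ℝ) / 2 ^ (2 * w + 3))) := by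
    intro γ hγ K hK
    refine Pool.Agent.Helper4.PH.CB.mono (hγ (K × Fin m)) ?_
    apply Real.rpow_le_rpow_of_exponent_le hB1
    have h1 : Fintype.card (K × Fin m) = K.card * m := by
      rw [Fintype.card_prod, Fintype.card_coe, Fintype.card_fin]
    rw [h1]
    have h2 : ((k1 * m : ℕ) : ℝ) ≤ ((K.card * m : ℕ) : ℝ) := by
      exact_mod_cast Nat.mul_le_mul_right m hK
    have h3 : (2 : ℝ) ^ (2 * w + 1 + 2) = 2 ^ (2 * w + 3) := by ring
    rw [h3]
    apply div_le_div_of_nonneg_right _ (by positivity)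
    linarith
  -- the types
  let Ty : Type := (Fin (w + 2) → Fin S) × Finset (Fin n) × (Fin (w + 1) → Fin n → Fin D × Fin m)
  let ok : Ty → Prop := fun θ => θ.1 0 = P.start ∧ (∃ z, P.act (θ.1 (Fin.last _)) = Sum.inr z) ∧
    3 * n ≤ 4 * θ.2.1.card
  let InTy : Ty → (B × Word D m B → F) → Prop := fun θ I => ok θ ∧ Gd (zr I) ∧ CF (fine g) x0 R (tab I) ∧
    InT P g x0 h R θ.1 θ.2.1 θ.2.2 I
  have hone : ∀ θ : Ty, (Nat.card {I : B × Word D m B → F // InTy θ I} : ℝ) ≤
      E * Nat.card (B × Word D m B → F) := by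
    intro θ
    by_cases hok : ok θ
    · obtain ⟨h0, ⟨z, hz⟩, hV⟩ := hok
      have hsum := card_fiber (zr : (B × Word D m B → F) →+ (B → F)) (InTy θ)
      have hall := card_fiber (zr : (B × Word D m B → F) →+ (B → F)) (fun _ => True)
      have hall' : Nat.card {I : B × Word D m B → F // True} = Nat.card (B × Word D m B → F) :=
        Nat.card_congr (Equiv.subtypeUnivEquiv fun _ => trivial)
      rw [hall'] at hall
      have hγ : ∀ γ : B → F, (Nat.card {I : B × Word D m B → F // zr I = γ ∧ InTy θ I} : ℝ) ≤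
          E * Nat.card {I : B × Word D m B → F // zr I = γ ∧ True} := by
        intro γ
        by_cases hg : Gd γ
        · have h1 := hTB θ.1 θ.2.1 θ.2.2 z γ hV (by
            intro I _ hruns
            obtain ⟨c, hc⟩ := run_chain P θ.1 hruns
            rw [h0] at hc
            exact (hP I c z ⟨_, hc, hz⟩).symm) (hgood γ hg)
          have h2 : Nat.card {I : B × Word D m B → F // zr I = γ ∧ InTy θ I} ≤
              Nat.card {I : B × Word D m B → F // (∀ b, I (b, 0) = γ b) ∧ CF (fine g) x0 R (tab I) ∧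
                InT P g x0 h R θ.1 θ.2.1 θ.2.2 I} := by
            refine Nat.card_le_card_of_injective
              (fun I => ⟨I.1, zr_eq.1 I.2.1, I.2.2.2.2.1, I.2.2.2.2.2⟩) ?_
            intro I I' h3
            exact Subtype.ext (Subtype.mk.inj h3)
          have h3 : Nat.card {I : B × Word D m B → F // zr I = γ ∧ True} =
              Nat.card {I : B × Word D m B → F // ∀ b, I (b, 0) = γ b} := by
            refine Nat.card_congr (Equiv.subtypeEquivRight fun I => ?_)
            rw [and_true, zr_eq]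
          rw [h3]
          exact (Nat.cast_le.mpr h2).trans h1
        · have h1 : Nat.card {I : B × Word D m B → F // zr I = γ ∧ InTy θ I} = 0 := by
            rw [Nat.card_eq_zero]
            refine Or.inl ⟨?_⟩
            rintro ⟨I, h2, h3⟩
            rw [← h2] at hg
            exact hg h3.2.1
          rw [h1, Nat.cast_zero]
          exact mul_nonneg hE0 (Nat.cast_nonneg _)
      rw [hsum, hall, Nat.cast_sum, Nat.cast_sum, mul_sum]
      exact sum_le_sum fun γ _ => hγ γ
    · have h1 : Nat.card {I : B × Word D m B → F // InTy θ I} = 0 := by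
        rw [Nat.card_eq_zero]
        exact Or.inl ⟨fun I => hok I.2.1⟩
      rw [h1, Nat.cast_zero]
      exact mul_nonneg hE0 (Nat.cast_nonneg _)
  -- the cover
  have hc1 : ∀ I : B × Word D m B → F, Q I → (¬ CF (fine g) x0 R (tab I) ∨
      (CF (fine g) x0 R (tab I) ∧ Fc I) ∨ ¬ Gd (zr I)) ∨ ∃ θ : Ty, InTy θ I := by
    intro I hQ
    by_cases hcf : CF (fine g) x0 R (tab I)
    · by_cases hg : Gd (zr I)
      · rcases hcov I hcf hQ with h1 | ⟨σ, V, τ, z, h1, h2, h3, h4⟩
        · exact Or.inl (Or.inr (Or.inl ⟨hcf, h1⟩))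
        · exact Or.inr ⟨(σ, V, τ), ⟨h1, ⟨z, h2⟩, h3⟩, hg, hcf, h4⟩
      · exact Or.inl (Or.inr (Or.inr hg))
    · exact Or.inl (Or.inl hcf)
  have h1 := card_le_add_sum hc1
  have h2 : Nat.card {I : B × Word D m B → F // ¬ CF (fine g) x0 R (tab I) ∨
      (CF (fine g) x0 R (tab I) ∧ Fc I) ∨ ¬ Gd (zr I)} ≤
      Nat.card {I : B × Word D m B → F // ¬ CF (fine g) x0 R (tab I)} +
      (Nat.card {I : B × Word D m B → F // CF (fine g) x0 R (tab I) ∧ Fc I} +
        Nat.card {I : B × Word D m B → F // ¬ Gd (zr I)}) := by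
    simp only [Nat.card_eq_fintype_card, Fintype.card_subtype]
    refine (card_le_card (t := univ.filter (fun I => ¬ CF (fine g) x0 R (tab I)) ∪
      (univ.filter (fun I => CF (fine g) x0 R (tab I) ∧ Fc I) ∪ univ.filter (fun I => ¬ Gd (zr I)))) ?_).trans
      ((card_union_le _ _).trans (Nat.add_le_add_left (card_union_le _ _) _))
    intro I hI
    simp only [mem_union, mem_filter, mem_univ, true_and] at hI ⊢
    exact hI
  have hcf := card_cf (F := F) g x0 hx0 R c0
  have hτ : (Fintype.card Ty : ℝ) ≤ S ^ (w + 2) * 2 ^ n * (D * m) ^ (n * (w + 1)) := by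
    have h3 : Fintype.card Ty = S ^ (w + 2) * (2 ^ n * ((D * m) ^ n) ^ (w + 1)) := by
      show Fintype.card ((Fin (w + 2) → Fin S) × Finset (Fin n) × (Fin (w + 1) → Fin n → Fin D × Fin m)) = _
      simp only [Fintype.card_prod, Fintype.card_fin, Fintype.card_fun, Fintype.card_finset]
    rw [h3, ← pow_mul]
    push_cast
    rw [mul_assoc]
  set N : ℝ := (Nat.card (B × Word D m B → F) : ℝ) with hN
  have hN0 : 0 ≤ N := Nat.cast_nonneg _
  have h3 : (Nat.card {I // Q I} : ℝ) ≤
      (Nat.card {I : B × Word D m B → F // ¬ CF (fine g) x0 R (tab I)} : ℝ) +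
      ((Nat.card {I : B × Word D m B → F // CF (fine g) x0 R (tab I) ∧ Fc I} : ℝ) +
        (Nat.card {I : B × Word D m B → F // ¬ Gd (zr I)} : ℝ)) +
      ∑ θ : Ty, (Nat.card {I : B × Word D m B → F // InTy θ I} : ℝ) := by
    have h4 : Nat.card {I // Q I} ≤ Nat.card {I : B × Word D m B → F // ¬ CF (fine g) x0 R (tab I)} +
      (Nat.card {I : B × Word D m B → F // CF (fine g) x0 R (tab I) ∧ Fc I} +
        Nat.card {I : B × Word D m B → F // ¬ Gd (zr I)}) +
        ∑ θ : Ty, Nat.card {I : B × Word D m B → F // InTy θ I} := h1.trans (Nat.add_le_add_right h2 _)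
    exact_mod_cast h4
  have h5 : ∑ θ : Ty, (Nat.card {I : B × Word D m B → F // InTy θ I} : ℝ) ≤
      (S ^ (w + 2) * 2 ^ n * (D * m) ^ (n * (w + 1)) * E) * N := by
    calc ∑ θ : Ty, (Nat.card {I : B × Word D m B → F // InTy θ I} : ℝ)
        ≤ ∑ _θ : Ty, E * N := sum_le_sum fun θ _ => hone θ
      _ = Fintype.card Ty * (E * N) := by rw [sum_const, card_univ, nsmul_eq_mul]
      _ ≤ (S ^ (w + 2) * 2 ^ n * (D * m) ^ (n * (w + 1))) * (E * N) :=
          mul_le_mul_of_nonneg_right hτ (mul_nonneg hE0 hN0)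
      _ = _ := by ring
  refine h3.trans ?_
  rw [add_mul, add_mul, add_mul]
  linarith

end main

end Pool.Agent.Helper78.NK
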