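import Pool.Agent.Helper78.NK.Rec
import Pool.Agent.Helper78.NK.Sum
import Pool.Agent.Helper43.NK.Par

/-!
# NK, C2b: the bound for sound programs with a short accepting computation
-/

set_option autoImplicit false

namespace Pool.Agent.Helper78.NK

open Finset Pool.Agent.Helper19.NF Pool.Agent.Helper74.NW Pool.Agent.Helper99.NQ Pool.Agent.Helper43.NK
open Pool.Agent.Helper74.NE (fine fine_apply)
open Pool.Agent.Helper96.PH (CB)

section main

variable {n D m d S : ℕ} [NeZero m] {F B Z : Type} [Field F] [Fintype F] [AddCommGroup B] [Module F B] [Fintype B]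

theorem par_mono {w h M Z κ v v' : ℕ} (hN : Par n D m d w F B h M Z κ v) (h1 : v ≤ v') :
    Par n D m d w F B h M Z κ v' :=
  { hN with chain := hN.chain.trans h1 }

theorem errB_nonneg (n d w Z : ℕ) {q r ε : ℝ} (hq : 0 ≤ q) (hr : 0 ≤ r) (hε : 0 ≤ ε) :
    0 ≤ errB n d w Z q r ε := by
  unfold errB
  positivity

/-- The bound of a type, in the form in which it is used by `assemble`. -/
theorem types_of (P : NProg (B × Word D m B) F F S) (g : Fin D → Equiv.Perm (Fin n)) (x0 : Fin n × Fin m → B)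
    (R : ℕ) {w : ℕ} (h M Z κ v : ℕ) (hv : 4 * v ≤ 3 * n) (hN : Par n D m d w F B h M Z κ v)
    (hTB : ∀ (σ : Fin (w + 2) → Fin S) (V : Finset (Fin n)) (τ : Fin (w + 1) → Fin n → Fin D × Fin m) (a : F)
      (γ : B → F),
      (∀ I, (∀ b, I (b, 0) = γ b) → (∀ l : Fin (w + 1), ∃ c, P.Run I (σ l.castSucc) c (σ l.succ)) →
        out g x0 (R + 1) I = a) → Par n D m d w F B h M Z κ V.card → ∀ ε : ℝ, 0 ≤ ε →
      (∀ K : Finset (Fin n), κ ≤ K.card → CB γ (K × Fin m) (2 * w + 1) ε) →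
      (Nat.card {I : B × Word D m B → F // (∀ b, I (b, 0) = γ b) ∧ CF (fine g) x0 R (tab I) ∧
        InT P g x0 (h + 1) R σ V τ I} : ℝ) ≤
        errB n d w Z (Fintype.card F) ((h : ℝ) / Fintype.card (Word D m B)) ε *
          Nat.card {I : B × Word D m B → F // ∀ b, I (b, 0) = γ b})
    (σ : Fin (w + 2) → Fin S) (V : Finset (Fin n)) (τ : Fin (w + 1) → Fin n → Fin D × Fin m) (a : F)
    (γ : B → F) (hV : 3 * n ≤ 4 * V.card)
    (hs : ∀ I, (∀ b, I (b, 0) = γ b) → (∀ l : Fin (w + 1), ∃ c, P.Run I (σ l.castSucc) c (σ l.succ)) →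
        out g x0 (R + 1) I = a)
    (hCB : ∀ K : Finset (Fin n), κ ≤ K.card → CB γ (K × Fin m) (2 * w + 1)
        ((Fintype.card B : ℝ) ^ (-((κ * m : ℕ) : ℝ) / 2 ^ (2 * w + 3)))) :
    (Nat.card {I : B × Word D m B → F // (∀ b, I (b, 0) = γ b) ∧ CF (fine g) x0 R (tab I) ∧
        InT P g x0 (h + 1) R σ V τ I} : ℝ) ≤
      errB n d w Z (Fintype.card F) ((h : ℝ) / Fintype.card (Word D m B))
        ((Fintype.card B : ℝ) ^ (-((κ * m : ℕ) : ℝ) / 2 ^ (2 * w + 3))) *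
        Nat.card {I : B × Word D m B → F // ∀ b, I (b, 0) = γ b} :=
  hTB σ V τ a γ hs (par_mono hN (by omega)) _ (Real.rpow_nonneg (Nat.cast_nonneg _) _) hCB

/-- NK, C2b. -/
theorem main_bound_of (P : NProg (B × Word D m B) F F S) (g : Fin D → Equiv.Perm (Fin n)) (x0 : Fin n × Fin m → B)
    (hx0 : Function.Injective x0) (h T a R ℓ κ' j : ℕ) {w : ℕ} (hℓ : 2 ^ R * ℓ ≤ T) (hD : 0 < D)
    (hX : ∀ X : Finset (Fin n), n ≤ 4 * (w + 1) * X.card →
      n ≤ (X.biUnion (fun u => univ.image (fun s => g s u))).card + a)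
    (ha : a < n) (hP : ∀ I l z, P.Ends I l z → z = out g x0 (R + 1) I)
    (hL : h + 1 + ℓ ≤ Fintype.card (Word D m B)) (hq : Fintype.card (Word D m B) ≤ (h + 1) * Fintype.card F)
    (hT : T ≤ Fintype.card (B × Word D m B)) (η : ℝ)
    (hη : η = 1 + (1 - (T : ℝ) / Fintype.card (B × Word D m B) - ((h + 1 : ℕ) : ℝ) / Fintype.card (Word D m B)) / 2)
    (hη1 : 1 ≤ η) (hκ' : 2 * a ≤ κ') (hj : 2 * j ≤ n)
    (M Z κ v : ℕ) (hv : 4 * v ≤ 3 * n) (hN : Par n D m d w F B h M Z κ v)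
    (hTB : ∀ (σ : Fin (w + 2) → Fin S) (V : Finset (Fin n)) (τ : Fin (w + 1) → Fin n → Fin D × Fin m) (a : F)
      (γ : B → F),
      (∀ I, (∀ b, I (b, 0) = γ b) → (∀ l : Fin (w + 1), ∃ c, P.Run I (σ l.castSucc) c (σ l.succ)) →
        out g x0 (R + 1) I = a) → Par n D m d w F B h M Z κ V.card → ∀ ε : ℝ, 0 ≤ ε →
      (∀ K : Finset (Fin n), κ ≤ K.card → CB γ (K × Fin m) (2 * w + 1) ε) →
      (Nat.card {I : B × Word D m B → F // (∀ b, I (b, 0) = γ b) ∧ CF (fine g) x0 R (tab I) ∧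
        InT P g x0 (h + 1) R σ V τ I} : ℝ) ≤
        errB n d w Z (Fintype.card F) ((h : ℝ) / Fintype.card (Word D m B)) ε *
          Nat.card {I : B × Word D m B → F // ∀ b, I (b, 0) = γ b})
    (hdi : ∀ (I : B × Word D m B → F) (c : List (B × Word D m B)) (z : F), P.Ends I c z →
      c.length ≤ (w + 1) * (2 ^ R * ℓ) →
      (∃ s t, (∃ c, P.Run I s c t ∧ c.length ≤ 2 ^ R * ℓ) ∧ Force P g x0 (h + 1) a R (2 ^ R * ℓ) s t I) ∨
      ∃ (σ : Fin (w + 2) → Fin S) (V : Finset (Fin n)) (τ : Fin (w + 1) → Fin n → Fin D × Fin m),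
      σ 0 = P.start ∧ P.act (σ (Fin.last _)) = Sum.inr z ∧ 3 * n ≤ 4 * V.card ∧ InT P g x0 (h + 1) R σ V τ I) :
    (Nat.card {I : B × Word D m B → F // ∃ l z, P.Ends I l z ∧ l.length ≤ (w + 1) * (2 ^ R * ℓ)} : ℝ) ≤
      (((R + 1) * (n * m)) ^ 2 / Fintype.card B +
        R * S ^ 3 * 2 ^ n * (D * m) ^ (2 * n) *
          err n m d a κ' j (Fintype.card F) (((h + 1 : ℕ) : ℝ) / Fintype.card (Word D m B)) η +
        Fintype.card F * 2 ^ (2 * w + 2) / Real.sqrt (Fintype.card B) +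
        S ^ (w + 2) * 2 ^ n * (D * m) ^ (n * (w + 1)) *
          errB n d w Z (Fintype.card F) ((h : ℝ) / Fintype.card (Word D m B))
            ((Fintype.card B : ℝ) ^ (-((κ * m : ℕ) : ℝ) / 2 ^ (2 * w + 3)))) *
        Nat.card (B × Word D m B → F) := by
  have hX4 : ∀ X : Finset (Fin n), n ≤ 4 * X.card →
      n ≤ (X.biUnion (fun u => univ.image (fun s => g s u))).card + a := by
    intro X h4
    refine hX X (h4.trans ?_)
    exact Nat.mul_le_mul_right _ (by omega)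
  have c0 : Fin D × Fin m := (⟨0, hD⟩, 0)
  refine assemble P g x0 hx0 c0 (h + 1) R (fun I => ∃ l z, P.Ends I l z ∧ l.length ≤ (w + 1) * (2 ^ R * ℓ))
    (fun I => ∃ s t, (∃ c, P.Run I s c t ∧ c.length ≤ 2 ^ R * ℓ) ∧
      Force P g x0 (h + 1) a R (2 ^ R * ℓ) s t I) _ ?_
    (forced_bound (d := d) P g x0 (h + 1) T a R ℓ κ' j c0 hX4 ha hℓ hL hq hT η hη hη1 hκ' hj) hP κ ?_
    (types_of P g x0 R h M Z κ v hv hN hTB)
  · rintro I - ⟨l, z, h1, h2⟩
    rcases hdi I l z h1 h2 with h3 | ⟨σ, V, τ, h3, h4, h5, h6⟩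
    · exact Or.inl h3
    · exact Or.inr ⟨σ, V, τ, z, h3, h4, h5, h6⟩
  · exact errB_nonneg _ _ _ _ (Nat.cast_nonneg _) (by positivity) (Real.rpow_nonneg (Nat.cast_nonneg _) _)

end main

end Pool.Agent.Helper78.NK
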